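import Pool.Agent.H.MP_ba78e1_pr.C

/-! The root law of uniform Lipschitz functions on a tree can oscillate with the parity of the depth. -/

open Filter Topology Finset

namespace Pool.Agent.H.MP_ba78e1_pr

def Rel (p : ℕ → ℤ → Prop) : List ℕ → ℤ → Prop
  | [], _ => True
  | v :: l, x => p v x ∧ Rel p l (x - 1)

lemma rel_mk {p : ℕ → ℤ → Prop} {f : ℤ → ℕ} (h : ∀ x, p (f x) x) : ∀ n x, Rel p (mk f n x) x
  | 0, _ => trivial
  | n + 1, x => ⟨h x, rel_mk h n _⟩

lemma rel_get {p : ℕ → ℤ → Prop} : ∀ {l : List ℕ} {x : ℤ} {i : ℕ}, Rel p l x → i < l.length → p (l.getD i 0) (x - i)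
  | v :: l, x, 0, h, _ => by simpa using h.1
  | v :: l, x, i + 1, h, t => by
    have := rel_get (i := i) h.2 (by simpa using t)
    rwa [show x - (i + 1 : ℕ) = x - 1 - i by push_cast; ring]

lemma rel_le {p q : ℕ → ℤ → Prop} (h : ∀ a b x, a ≤ b → (p b x → p a x) ∧ (q a x → q b x)) :
    ∀ {l m : List ℕ} {x : ℤ}, le l m = true → (Rel p m x → Rel p l x) ∧ (Rel q l x → Rel q m x)
  | [], [], _, _ => ⟨id, id⟩
  | a :: l, b :: m, x, t => by
    simp only [le, Bool.and_eq_true, decide_eq_true_eq] at t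
    exact ⟨fun r => ⟨(h a b x t.1).1 r.1, (rel_le h t.2).1 r.2⟩, fun r => ⟨(h a b x t.1).2 r.1, (rel_le h t.2).2 r.2⟩⟩

lemma rel_go {p q I : ℕ → ℤ → Prop} {f : ℕ → ℕ} {c : ℤ} (h1 : ∀ s v x, I s x → p v x → I (s + v) (x - 1))
    (h2 : ∀ s x, I s x → q (f s) (c - x)) : ∀ (l : List ℕ) (s : ℕ) (x : ℤ) (acc : List ℕ), Rel p l x → I s x →
      Rel q acc (c - x - 1) → Rel q (go f s l acc) (c - x - 1 + l.length)
  | [], _, _, _, _, _, r => by simpa [go] using r
  | v :: l, s, x, acc, a, b, r => by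
    have := rel_go h1 h2 l (s + v) (x - 1) (f s :: acc) a.2 (h1 _ _ _ b a.1)
      (by rw [show c - (x - 1) - 1 = c - x by ring]; exact ⟨h2 _ _ b, r⟩)
    rwa [show c - x - 1 + ((v :: l).length : ℕ) = c - (x - 1) - 1 + l.length by simp; ring]

lemma O0 : (0 : ℝ) < O := by norm_num [O]

lemma sqlo_le : ∀ (j x : ℕ) {y : ℝ}, x ≤ O * y → sqlo j x ≤ O * y ^ 2 ^ j
  | 0, _, _, h => by simpa [sqlo] using h
  | j + 1, x, y, h => by
    rw [pow_succ' 2 j, pow_mul]
    refine sqlo_le j _ (Nat.cast_div_le.trans ?_)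
    change _ / (O : ℝ) ≤ _
    rw [div_le_iff₀ O0]
    push_cast
    nlinarith [mul_self_le_mul_self x.cast_nonneg h]

lemma le_sqhi : ∀ (j x : ℕ) {y : ℝ}, 0 ≤ y → O * y ≤ x → O * y ^ 2 ^ j ≤ sqhi j x
  | 0, _, _, _, h => by simpa [sqhi] using h
  | j + 1, x, y, y0, h => by
    rw [pow_succ' 2 j, pow_mul]
    refine le_sqhi j _ (by positivity) (le_of_mul_le_mul_right ?_ O0)
    have a : ((x * x : ℕ) : ℝ) ≤ ((x * x / O + 1) * O : ℕ) := by
      exact_mod_cast (by rw [add_mul, one_mul]; exact (Nat.lt_div_mul_add (by norm_num [O])).le)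
    change _ ≤ ((x * x / O + 1 : ℕ) : ℝ) * O
    rw [Nat.cast_mul, Nat.cast_mul] at a
    nlinarith [mul_self_le_mul_self (mul_nonneg O0.le y0) h]

def M : ℤ := 12 * 10 ^ 15

lemma hM : M = 12000000000000000 := by norm_num [M]

noncomputable def R (z : ℤ → ℝ) (m : ℤ) : ℝ := ∑' y, if m ≤ y then z y else 0

noncomputable def nx (z : ℤ → ℝ) (x : ℤ) : ℝ := ((∑ y ∈ Icc (x - M) (x + M), z y) / ∑' y, z y) ^ 2 ^ 53

structure Pos (z : ℤ → ℝ) : Prop where
  su : Summable z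
  z0 : ∀ x, 0 ≤ z x

structure Inv (z : ℤ → ℝ) (p : List ℕ × List ℕ) : Prop extends Pos z where
  z1 : ∀ x, z x ≤ 1
  sy : ∀ x, z (M - x) = z x
  lo : Rel (fun v x => (v : ℝ) ≤ O * z x) p.1 (M + 60)
  hi : Rel (fun v x => O * z x ≤ (v : ℝ)) p.2 (M + 60)
  ta : R z (M + 61) ≤ 1 / 10 ^ 16
  bu : ∀ x, 60 < x → x < M - 60 → 1 - 2 / 10 ^ 16 ≤ z x

namespace Pos
variable {z : ℤ → ℝ} (h : Pos z)
include h

lemma sm (q : ℤ → Prop) [DecidablePred q] : Summable fun y => if q y then z y else 0 :=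
  h.su.of_nonneg_of_le (fun y => by have := h.z0 y; positivity) fun y => by have := h.z0 y; split_ifs <;> linarith

lemma R0 (m : ℤ) : 0 ≤ R z m := tsum_nonneg fun y => by have := h.z0 y; positivity

lemma Rs (x : ℤ) : R z x = z x + R z (x + 1) := by
  rw [R, R, ← tsum_ite_eq x z, ← (h.sm _).tsum_add (h.sm _)]
  refine tsum_congr fun y => ?_
  split_ifs <;> first | omega | simp

lemma Rk (x : ℤ) (n : ℕ) : R z x = ∑ i ∈ range n, z (x + i) + R z (x + n) := by
  induction n with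
  | zero => simp
  | succ n ih => rw [sum_range_succ, ih, h.Rs (x + n)]; push_cast; ring_nf

lemma Ra {a b : ℤ} (l : a ≤ b) : R z b ≤ R z a := by
  obtain ⟨n, rfl⟩ := Int.le.dest l
  rw [h.Rk a n]
  exact le_add_of_nonneg_left (sum_nonneg fun _ _ => h.z0 _)

end Pos

namespace Inv
variable {z : ℤ → ℝ} {p : List ℕ × List ℕ} (h : Inv z p)
include h

lemma sp {a b : ℤ} (l : a ≤ b) : ∑' y, z y = ∑ y ∈ Icc a b, z y + R z (b + 1) + R z (M - a + 1) := by
  have e : R z (M - a + 1) = ∑' y, if y < a then z y else 0 := by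
    rw [R, ← (Equiv.subLeft M).tsum_eq]
    refine tsum_congr fun y => ?_
    simp only [Equiv.subLeft_apply, h.sy]
    split_ifs <;> first | omega | rfl
  rw [e, R, sum_eq_tsum_indicator]
  simp only [Set.indicator_apply]
  rw [← (h.sm _).tsum_add (h.sm _), ← ((h.sm _).add (h.sm _)).tsum_add (h.sm _)]
  refine tsum_congr fun y => ?_
  simp only [coe_Icc, Set.mem_Icc]
  split_ifs <;> first | omega | simp

lemma T1 : 12 * 10 ^ 15 - 150 ≤ ∑' y, z y := by
  have a := h.su.sum_le_tsum (Ioo 60 (M - 60)) fun y _ => h.z0 y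
  have b := card_nsmul_le_sum (Ioo 60 (M - 60)) z _ fun y t => h.bu y (mem_Ioo.1 t).1 (mem_Ioo.1 t).2
  rw [Int.card_Ioo, show (M - 60 - 60 - 1).toNat = 11999999999999879 by simp [hM], nsmul_eq_mul] at b
  exact le_trans (by norm_num) (b.trans a)

lemma T2 : ∑' y, z y ≤ 12 * 10 ^ 15 + 300 := by
  have a := h.sp (a := -60) (b := M + 60) (by norm_num [hM])
  have b := sum_le_card_nsmul (Icc (-60) (M + 60)) z _ fun y _ => h.z1 y
  have c := h.ta
  rw [Int.card_Icc, show (M + 60 + 1 - -60).toNat = 12000000000000121 by simp [hM], nsmul_eq_mul] at b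
  rw [show M + 60 + 1 = M + 61 by ring, show M - -60 + 1 = M + 61 by ring] at a
  exact a.trans_le ((add_le_add (add_le_add b c) c).trans (by norm_num))

lemma fo (x : ℤ) : ∃ t, nx z x = (1 - t) ^ 2 ^ 53 ∧ 1 - t = (∑ y ∈ Icc (x - M) (x + M), z y) / (∑' y, z y) ∧ 0 ≤ t ∧ t ≤ 1 ∧
    t * ∑' y, z y = R z (x + M + 1) + R z (2 * M - x + 1) := by
  have a := h.sp (a := x - M) (b := x + M) (by have := hM; omega)
  have b := h.T1
  have c : 0 ≤ ∑ y ∈ Icc (x - M) (x + M), z y := sum_nonneg fun _ _ => h.z0 _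
  have T : 0 < ∑' y, z y := by linarith
  rw [show M - (x - M) + 1 = 2 * M - x + 1 by ring] at a
  refine ⟨1 - (∑ y ∈ Icc (x - M) (x + M), z y) / ∑' y, z y, by simp [nx], by simp, ?_, ?_, ?_⟩
  · rw [sub_nonneg, div_le_one T]
    linarith [h.R0 (x + M + 1), h.R0 (2 * M - x + 1)]
  · simpa using div_nonneg c T.le
  · rw [sub_mul, div_mul_cancel₀ _ T.ne']
    linarith

lemma hs : HasSum (fun x => (∑ y ∈ Icc (x - M) (x + M), z y) / ∑' y, z y) (2 * M + 1) := by
  have T : 0 < ∑' y, z y := by linarith [h.T1]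
  have a := (hasSum_sum (s := Icc (-M) M) fun j _ => (Equiv.addRight j).hasSum_iff.2 h.su.hasSum).div_const (∑' y, z y)
  rw [sum_const, Int.card_Icc, nsmul_eq_mul, mul_div_cancel_right₀ _ T.ne',
    show (M + 1 - -M).toNat = 24000000000000001 by simp [hM]] at a
  rw [show (2 * M + 1 : ℝ) = (24000000000000001 : ℕ) by norm_num [hM]]
  refine a.congr_fun fun x => congrArg (· / _) ?_
  refine sum_nbij' (· - x) (x + ·) ?_ ?_ ?_ ?_ ?_ <;> simp <;> omega

lemma sl : ∀ (l : List ℕ) (x : ℤ), Rel (fun v x => (v : ℝ) ≤ O * z x) l x →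
    l.sum + O * R z (x + 1) ≤ O * R z (x + 1 - l.length)
  | [], _, _ => by simp
  | v :: l, x, r => by
    have a := sl l _ r.2
    have b := r.1
    rw [sub_add_cancel] at a
    rw [show x + 1 - ((v :: l).length : ℕ) = x - l.length by simp]
    nth_rw 1 [h.Rs x] at a
    simp only [List.sum_cons, Nat.cast_add] at b ⊢
    linarith

lemma n0 (x : ℤ) : 0 ≤ nx z x := pow_nonneg (div_nonneg (sum_nonneg fun _ _ => h.z0 _) (tsum_nonneg h.z0)) _

lemma nle (x : ℤ) {q : ℝ} (l : (∑ y ∈ Icc (x - M) (x + M), z y) / (∑' y, z y) ≤ q) :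
    nx z x ≤ q ^ (2 ^ 53 - 1) * ((∑ y ∈ Icc (x - M) (x + M), z y) / ∑' y, z y) := by
  obtain ⟨t, e, e', t0, t1, -⟩ := h.fo x
  rw [e, ← e', show 2 ^ 53 = 2 ^ 53 - 1 + 1 by norm_num, pow_succ, add_tsub_cancel_right]
  exact mul_le_mul_of_nonneg_right (pow_le_pow_left₀ (by linarith) (e' ▸ l) _) (by linarith)

lemma nsu : Summable (nx z) := h.hs.summable.of_nonneg_of_le h.n0 fun x => by
  obtain ⟨t, -, e', t0, -⟩ := h.fo x
  simpa using h.nle x (q := 1) (by linarith)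

lemma tail (o : ok p = true) : R (nx z) (M + 61) ≤ 1 / 10 ^ 16 := by
  simp only [ok, Bool.and_eq_true, beq_iff_eq, decide_eq_true_eq] at o
  have T1 := h.T1
  have T2 := h.T2
  have a : 57 ≤ R z (M - 60) := by
    have b := h.sl _ _ h.lo
    have c : (57 * O : ℝ) ≤ p.1.sum := by exact_mod_cast o.2
    rw [o.1.1, show M + 60 + 1 - (121 : ℕ) = M - 60 by push_cast; ring] at b
    nlinarith [O0, mul_nonneg O0.le (h.R0 (M + 60 + 1))]
  have b (i : ℕ) (l : i ≤ 6 * 10 ^ 15) : 57 + i / 2 ≤ R z (M - 60 - i) := by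
    have c := card_nsmul_le_sum (range i) (fun j => z (M - 60 - i + j)) (1 / 2) fun j t =>
      le_trans (by norm_num) (h.bu _ (by have := hM; omega) (by have := mem_range.1 t; omega))
    rw [h.Rk _ i, sub_add_cancel]
    simp only [card_range, nsmul_eq_mul] at c
    linarith
  have P : Pos (nx z) := ⟨h.nsu, h.n0⟩
  have c (i : ℕ) (l : i ≤ 6 * 10 ^ 15) : nx z (M + 61 + i) ≤ (0.368 : ℝ) ^ 42 * (3 / 4) ^ i := by
    obtain ⟨t, e, -, t0, t1, r⟩ := h.fo (M + 61 + i)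
    have r0 := h.R0 (M + 61 + i + M + 1)
    rw [show 2 * M - (M + 61 + i) + 1 = M - 60 - i by ring] at r
    have u : 3 / 4 * (57 + i / 2) ≤ (2 ^ 53 : ℕ) * t := by
      have := b i l
      push_cast
      nlinarith [mul_le_mul_of_nonneg_left T2 t0]
    have v := pow_le_pow_left₀ (by linarith) (Real.one_sub_le_exp_neg t) (2 ^ 53)
    rw [← Real.exp_nat_mul] at v
    refine e.trans_le (v.trans (le_trans (b := Real.exp ((42 : ℕ) * -1 + i * -(3 / 8))) ?_ ?_))
    · rw [Real.exp_le_exp]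
      push_cast at u ⊢
      linarith
    · rw [Real.exp_add, Real.exp_nat_mul, Real.exp_nat_mul]
      gcongr
      · linarith [Real.exp_neg_one_lt_d9]
      · rw [Real.exp_neg, inv_le_comm₀ (Real.exp_pos _) (by norm_num)]
        linarith [Real.add_one_le_exp (3 / 8)]
  have d : R (nx z) (M + 61 + (6 * 10 ^ 15 : ℕ)) ≤ (4 / 5) ^ (2 ^ 53 - 1) * (2 * M + 1) := by
    rw [← (h.hs.mul_left _).tsum_eq]
    refine (P.sm _).tsum_le_tsum (fun x => ?_) (h.hs.mul_left _).summable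
    obtain ⟨t, -, e, t0, t1, r⟩ := h.fo x
    split_ifs with l
    · refine h.nle x (e ▸ ?_)
      have r0 := h.R0 (x + M + 1)
      have r1 := (b _ le_rfl).trans (h.Ra (show 2 * M - x + 1 ≤ M - 60 - (6 * 10 ^ 15 : ℕ) by omega))
      push_cast at r1
      nlinarith [mul_le_mul_of_nonneg_left T2 t0]
    · rw [← e]
      exact mul_nonneg (by positivity) (by linarith)
  have e : (4 / 5 : ℝ) ^ (2 ^ 53 - 1) ≤ (1 / 2) ^ 200 :=
    (pow_le_pow_of_le_one (by norm_num) (by norm_num) (show 4 * 200 ≤ _ by norm_num)).trans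
      (by rw [pow_mul]; exact pow_le_pow_left₀ (by norm_num) (by norm_num) _)
  have f := sum_le_sum (s := range (6 * 10 ^ 15)) fun i t => c i (mem_range.1 t).le
  have g := sum_le_hasSum (range (6 * 10 ^ 15)) (fun _ _ => by positivity)
    (hasSum_geometric_of_lt_one (show (0 : ℝ) ≤ 3 / 4 by norm_num) (by norm_num))
  rw [← mul_sum] at f
  rw [P.Rk _ (6 * 10 ^ 15)]
  refine (add_le_add (f.trans (mul_le_mul_of_nonneg_left g (by positivity)))
    (d.trans (mul_le_mul_of_nonneg_right e (by norm_num [hM])))).trans ?_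
  norm_num [hM]

lemma nxt (o : ok p = true) : Inv (nx z) (step p) := by
  have T1 := h.T1
  have T2 := h.T2
  have ta := h.ta
  have o' := o
  simp only [ok, Bool.and_eq_true, beq_iff_eq] at o'
  refine ⟨⟨h.nsu, h.n0⟩, fun x => ?_, fun x => ?_, ?_, ?_, h.tail o, fun x a b => ?_⟩
  · obtain ⟨t, e, -, t0, t1, -⟩ := h.fo x
    exact e.trans_le (pow_le_one₀ (by linarith) (by linarith))
  · obtain ⟨t, e, -, -, -, r⟩ := h.fo x
    obtain ⟨t', e', -, -, -, r'⟩ := h.fo (M - x)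
    rw [show M - x + M + 1 = 2 * M - x + 1 by ring, show 2 * M - (M - x) + 1 = x + M + 1 by ring, add_comm, ← r] at r'
    rw [e, e', mul_right_cancel₀ (by linarith) r']
  · have := rel_go (I := fun s x => x ≤ M + 60 ∧ O * R z (x + 1) ≤ s + O / 10 ^ 16) (f := fL) (c := 2 * M)
      (p := fun v x => O * z x ≤ (v : ℝ)) (q := fun v x => (v : ℝ) ≤ O * nx z x)
      (fun s v x a b => ⟨by omega, by rw [sub_add_cancel, h.Rs]; push_cast; linarith [a.2]⟩) (fun s x a => ?_) _ 0 _ []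
      h.hi ⟨le_rfl, by rw [show M + 60 + 1 = M + 61 by ring]; nlinarith [O0]⟩ trivial
    · rwa [o'.1.2, show 2 * M - (M + 60) - 1 + (121 : ℕ) = M + 60 by ring] at this
    obtain ⟨t, e, -, t0, t1, r⟩ := h.fo (2 * M - x)
    have r1 := (h.Ra (show M + 61 ≤ 2 * M - x + M + 1 by have := hM; omega)).trans ta
    rw [e]
    refine sqlo_le 53 _ ?_
    rw [sub_sub_cancel] at r
    set k := (s + 2 * (O / 10 ^ 16 + 1)) / (12 * 10 ^ 15 - 300) + 1
    have k1 : ((s + 2 * (O / 10 ^ 16 + 1) : ℕ) : ℝ) ≤ (k * (12 * 10 ^ 15 - 300) : ℕ) := by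
      exact_mod_cast (by rw [add_mul, one_mul]; exact (Nat.lt_div_mul_add (by norm_num)).le)
    have k2 : (O / 10 ^ 16 : ℝ) ≤ (O / 10 ^ 16 + 1 : ℕ) := by norm_num [O]
    have k3 : O * t ≤ k := by
      push_cast at k1 k2
      nlinarith [a.2, O0, mul_le_mul_of_nonneg_left T1 (mul_nonneg O0.le t0), mul_le_mul_of_nonneg_left r1 O0.le]
    rcases le_total k O with l | l
    · rw [Nat.cast_sub l]
      linarith
    · rw [Nat.sub_eq_zero_of_le l, Nat.cast_zero]
      exact mul_nonneg O0.le (by linarith)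
  · have := rel_go (I := fun s x => s ≤ O * R z (x + 1)) (f := fU) (c := 2 * M)
      (p := fun v x => (v : ℝ) ≤ O * z x) (q := fun v x => O * nx z x ≤ (v : ℝ))
      (fun s v x a b => by rw [sub_add_cancel, h.Rs]; push_cast; linarith) (fun s x a => ?_) _ 0 _ []
      h.lo (by simpa using mul_nonneg O0.le (h.R0 _)) trivial
    · rwa [o'.1.1, show 2 * M - (M + 60) - 1 + (121 : ℕ) = M + 60 by ring] at this
    obtain ⟨t, e, -, t0, t1, r⟩ := h.fo (2 * M - x)
    have r1 := h.R0 (2 * M - x + M + 1)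
    rw [e]
    refine le_sqhi 53 _ (by linarith) ?_
    rw [sub_sub_cancel] at r
    set k := s / (12 * 10 ^ 15 + 300)
    have k1 : ((k * (12 * 10 ^ 15 + 300) : ℕ) : ℝ) ≤ s := by exact_mod_cast Nat.div_mul_le_self _ _
    have k3 : k ≤ O * t := by
      push_cast at k1
      nlinarith [O0, mul_le_mul_of_nonneg_left T2 (mul_nonneg O0.le t0), mul_nonneg O0.le r1]
    have k4 : (O : ℝ) ≤ (O - k : ℕ) + k := by exact_mod_cast le_tsub_add
    linarith
  · obtain ⟨t, e, -, t0, t1, r⟩ := h.fo x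
    have r1 := (h.Ra (show M + 61 ≤ x + M + 1 by omega)).trans ta
    have r2 := (h.Ra (show M + 61 ≤ 2 * M - x + 1 by omega)).trans ta
    have := one_add_mul_le_pow (show -2 ≤ -t by linarith) (2 ^ 53)
    rw [e, sub_eq_add_neg 1 t]
    refine le_trans ?_ this
    push_cast
    nlinarith [mul_le_mul_of_nonneg_left T1 t0]

lemma wk {q : List ℕ × List ℕ} (a : le q.1 p.1 = true) (b : le p.2 q.2 = true) : Inv z q := by
  have c (u v : ℕ) (x) (l : u ≤ v) : ((v : ℝ) ≤ O * z x → (u : ℝ) ≤ O * z x) ∧ (O * z x ≤ (u : ℝ) → O * z x ≤ (v : ℝ)) :=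
    ⟨(Nat.cast_le.2 l).trans, (·.trans (Nat.cast_le.2 l))⟩
  exact { h with lo := (rel_le c a).1 h.lo, hi := (rel_le c b).2 h.hi }

end Inv

lemma le_rf : ∀ l, le l l = true
  | [] => rfl
  | a :: l => by simp [le, le_rf l]

lemma of_fin {z : ℕ → ℤ → ℝ} (hz : ∀ n, z (n + 1) = nx (z n)) {a p n} (f : fin a p = true) (h : Inv (z n) p) (k : ℕ) :
    z (n + 2 * k) M / ∑' y, z (n + 2 * k) y ≤ 0.45 / (12 * 10 ^ 15 - 150) ∧
      0.65 / (12 * 10 ^ 15 + 300) ≤ z (n + 2 * k + 1) M / ∑' y, z (n + 2 * k + 1) y := by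
  simp only [fin, Bool.and_eq_true, decide_eq_true_eq] at f
  obtain ⟨⟨⟨⟨⟨⟨f1, f2⟩, f3⟩, f4⟩, f5⟩, f6⟩, f7⟩ := f
  have I : Inv (z (n + 2 * k)) (a, p.2) := by
    induction k with
    | zero => exact h.wk f1 (le_rf _)
    | succ k ih => rw [show n + 2 * (k + 1) = n + 2 * k + 1 + 1 by ring, hz, hz]; exact ((ih.nxt f2).nxt f3).wk f4 f5
  have J := I.nxt f2
  rw [← hz] at J
  simp only [ok, Bool.and_eq_true, beq_iff_eq] at f2 f3
  have u := rel_get (i := 60) I.hi (by rw [f2.1.2]; norm_num)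
  have v := rel_get (i := 60) J.lo (by rw [f3.1.1]; norm_num)
  have f6' : (100 * p.2.getD 60 0 : ℝ) ≤ 45 * O := by exact_mod_cast f6
  have f7' : (65 * O : ℝ) ≤ 100 * (step (a, p.2)).1.getD 60 0 := by exact_mod_cast f7
  simp only [Nat.cast_ofNat, add_sub_cancel_right] at u v
  exact ⟨div_le_div₀ (by norm_num) (by nlinarith [O0]) (by norm_num) I.T1,
    div_le_div₀ (J.z0 _) (by nlinarith [O0]) (by linarith [J.T1]) J.T2⟩

lemma of_run {z : ℕ → ℤ → ℝ} (hz : ∀ n, z (n + 1) = nx (z n)) {a} : ∀ j n p, run a j p = true → Inv (z n) p →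
    ∃ q, fin a q = true ∧ Inv (z (n + j)) q
  | 0, _, p, r, h => ⟨p, r, h⟩
  | j + 1, n, p, r, h => by
    simp only [run, Bool.and_eq_true] at r
    rw [show n + (j + 1) = n + 1 + j by ring]
    exact of_run hz j _ _ r.2 (hz n ▸ h.nxt r.1)

lemma init : Inv (fun x => if 0 ≤ x ∧ x ≤ M then 1 else 0) (ind 0, ind 0) := by
  refine ⟨⟨summable_of_ne_finset_zero (s := Icc 0 M) fun x t => if_neg (by simpa using t), fun x => by positivity⟩,
    fun x => by split_ifs <;> norm_num, fun x => by split_ifs <;> first | omega | rfl, rel_mk (fun x => ?_) _ _,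
    rel_mk (fun x => ?_) _ _, ?_, fun x a b => by rw [if_pos (by omega)]; norm_num⟩
  · simp only [M, add_zero]
    split_ifs <;> simp
  · simp only [M, add_zero]
    split_ifs <;> simp
  · rw [R, tsum_congr (g := fun _ => 0) fun y => by split_ifs <;> first | omega | rfl]
    simp

theorem osc {z : ℕ → ℤ → ℝ} (h0 : z 0 = fun x => if 0 ≤ x ∧ x ≤ M then 1 else 0) (hz : ∀ n, z (n + 1) = nx (z n)) :
    ¬ ∃ p, Tendsto (fun n => z n M / ∑' y, z n y) atTop (𝓝 p) := by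
  rintro ⟨p, t⟩
  obtain ⟨q, f, I⟩ := of_run hz 32 0 _ chk (h0 ▸ init)
  have a : Tendsto (fun k : ℕ => 0 + 32 + 2 * k) atTop atTop := tendsto_atTop_mono (fun k => by simp; omega) tendsto_id
  have u := le_of_tendsto' (t.comp a) fun k => (of_fin hz f I k).1
  have v := ge_of_tendsto' (t.comp ((tendsto_add_atTop_nat 1).comp a)) fun k => (of_fin hz f I k).2
  have := v.trans u
  norm_num at this

def V (d n : ℕ) := {l : List (Fin d) // l.length ≤ n}

def root (d n : ℕ) : V d n := ⟨[], n.zero_le⟩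

def T (d : ℕ) (m : ℤ) (n : ℕ) := {f : V d n → ℤ // (∀ (u v : V d n) (a : Fin d), v.1 = u.1 ++ [a] → |f u - f v| ≤ m) ∧
  ∀ u : V d n, u.1.length = n → 0 ≤ f u ∧ f u ≤ m}

def eqv (d : ℕ) (m : ℤ) (n : ℕ) (x : ℤ) : {f : T d m (n + 1) // f.1 (root d _) = x} ≃
    (Fin d → {g : T d m n // g.1 (root d n) ∈ Icc (x - m) (x + m)}) where
  toFun f a := ⟨⟨fun l => f.1.1 ⟨a :: l.1, Nat.succ_le_succ l.2⟩, fun u v b e => f.1.2.1 _ _ b (by simp [e]),
    fun u e => f.1.2.2 _ (by simp [e])⟩, by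
      have := abs_le.1 (f.1.2.1 (root d _) ⟨[a], by simp⟩ a rfl)
      rw [f.2] at this
      exact mem_Icc.2 ⟨by linarith! [this.2], by linarith! [this.1]⟩⟩
  invFun g := ⟨⟨fun l => match l with
      | ⟨[], _⟩ => x
      | ⟨a :: l, h⟩ => (g a).1.1 ⟨l, Nat.le_of_succ_le_succ h⟩, by
    rintro ⟨_ | ⟨b, u⟩, hu⟩ ⟨v, hv⟩ a rfl
    · have := mem_Icc.1 (g a).2
      exact abs_le.2 ⟨by linarith! [this.2], by linarith! [this.1]⟩
    · exact (g b).1.2.1 _ _ a rfl, by
    rintro ⟨_ | ⟨b, u⟩, hu⟩ e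
    · simp at e
    · exact (g b).1.2.2 _ (by simpa using e)⟩, rfl⟩
  left_inv f := Subtype.ext (Subtype.ext (funext fun l => match l with
      | ⟨[], _⟩ => f.2.symm
      | ⟨_ :: _, _⟩ => rfl))
  right_inv g := rfl

def eq0 (d : ℕ) (m : ℤ) : T d m 0 ≃ Icc 0 m where
  toFun f := ⟨f.1 (root d 0), mem_Icc.2 (f.2.2 _ rfl)⟩
  invFun x := ⟨fun _ => x, fun u v a e => by have := v.2; simp [e] at this, fun _ _ => mem_Icc.1 x.2⟩
  left_inv f := Subtype.ext (funext fun l => congrArg f.1 (Subtype.ext (List.length_eq_zero_iff.1 (Nat.le_zero.1 l.2)).symm))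
  right_inv x := rfl

lemma fi {d : ℕ} (hd : 0 < d) (m : ℤ) : ∀ n, Finite (T d m n)
  | 0 => .of_equiv _ (eq0 d m).symm
  | n + 1 => by
    have := fi hd m n
    let c (f : T d m (n + 1)) := eqv d m n _ ⟨f, rfl⟩
    refine .of_injective (β := (Fin d → T d m n) × Icc (-m) m) (fun f => (fun a => (c f a).1,
      ⟨(c f ⟨0, hd⟩).1.1 (root d n) - f.1 (root d _), by have := mem_Icc.1 (c f ⟨0, hd⟩).2; rw [mem_Icc]; omega⟩))
      fun f g e => ?_
    simp only [Prod.mk.injEq, Subtype.mk.injEq] at e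
    refine Subtype.ext (funext fun l => match l with
      | ⟨[], _⟩ => ?_
      | ⟨a :: l, h⟩ => congrFun (congrArg Subtype.val (congrFun e.1 a)) ⟨l, Nat.le_of_succ_le_succ h⟩)
    have := e.2
    rw [congrFun e.1 ⟨0, hd⟩, sub_right_inj] at this
    exact this

lemma cs {α : Type} [Finite α] (r : α → ℤ) (s : Finset ℤ) :
    (Nat.card {a // r a ∈ s} : ℝ) = ∑ y ∈ s, (Nat.card {a // r a = y} : ℝ) := by
  have := Fintype.ofFinite α
  simp only [Nat.card_eq_fintype_card, Fintype.card_subtype]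
  rw [card_eq_sum_card_fiberwise (f := r) (t := s) (by simp [Set.MapsTo])]
  push_cast
  refine sum_congr rfl fun y t => ?_
  congr 2
  ext a
  simp only [mem_filter, mem_univ, true_and, and_iff_right_iff_imp]
  exact fun e => e ▸ t

lemma ct {α : Type} [Finite α] (r : α → ℤ) : ∑' y, (Nat.card {a // r a = y} : ℝ) = Nat.card α := by
  have := Fintype.ofFinite α
  rw [tsum_eq_sum (s := univ.image r) fun y t => ?_, ← cs]
  · simp
  · have : IsEmpty {a // r a = y} := ⟨fun a => t (mem_image.2 ⟨a.1, mem_univ _, a.2⟩)⟩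
    simp

theorem main : (∀ n, Finite (T (2 ^ 53) M n) ∧ Nonempty (T (2 ^ 53) M n)) ∧
    ¬ ∃ p : ℝ, Tendsto (fun n => (Nat.card {f : T (2 ^ 53) M n // f.1 (root _ n) = M} : ℝ) / Nat.card (T (2 ^ 53) M n))
      atTop (𝓝 p) := by
  have F := fi (d := 2 ^ 53) (by norm_num) M
  have E (n) : Nonempty (T (2 ^ 53) M n) := ⟨⟨fun _ => 0, by simp [hM], by simp [hM]⟩⟩
  refine ⟨fun n => ⟨F n, E n⟩, ?_⟩
  let N (n x) : ℝ := Nat.card {f : T (2 ^ 53) M n // f.1 (root _ n) = x}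
  let C : ℕ → ℝ := fun n => n.casesOn 1 fun n => (Nat.card (T (2 ^ 53) M n) : ℝ) ^ 2 ^ 53
  have P (n) : (0 : ℝ) < Nat.card (T (2 ^ 53) M n) := Nat.cast_pos.2 Nat.card_pos
  have C0 (n) : C n ≠ 0 := by
    cases n
    exacts [one_ne_zero, pow_ne_zero _ (P _).ne']
  have S (n) : ∑' y, N n y / C n = Nat.card (T (2 ^ 53) M n) / C n := by rw [tsum_div_const, ct]
  have := osc (z := fun n x => N n x / C n) (funext fun x => ?_) fun n => funext fun x => ?_
  · simpa only [S, div_div_div_cancel_right₀ (C0 _)] using this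
  · simp only [N, C, Nat.rec_zero, div_one]
    rw [Nat.card_congr ((eq0 _ M).subtypeEquiv (p := fun f => f.1 (root _ 0) = x) (q := fun y => y.1 = x)
      fun _ => Iff.rfl)]
    split_ifs with l
    · have : Unique {y : Icc 0 M // y.1 = x} := ⟨⟨⟨⟨x, mem_Icc.2 l⟩, rfl⟩⟩, fun y => Subtype.ext (Subtype.ext y.2)⟩
      simp
    · have : IsEmpty {y : Icc 0 M // y.1 = x} := ⟨fun y => l (y.2 ▸ mem_Icc.1 y.1.2)⟩
      simp
  · rw [nx, S, ← sum_div, div_div_div_cancel_right₀ (C0 _), div_pow]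
    simp only [N, C]
    rw [Nat.card_congr (eqv _ M n x), Nat.card_fun, Nat.cast_pow, cs, Nat.card_eq_fintype_card, Fintype.card_fin]

end Pool.Agent.H.MP_ba78e1_pr
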