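import Mathlib

/-! Fixed point interval iteration for Lipschitz functions on trees. -/

namespace Pool.Agent.H.MP_ba78e1_pr

def O : ℕ := 2 ^ 160

def sqlo : ℕ → ℕ → ℕ
  | 0, x => x
  | j + 1, x => sqlo j (x * x / 2 ^ 160)

def sqhi : ℕ → ℕ → ℕ
  | 0, x => x
  | j + 1, x => sqhi j (x * x / 2 ^ 160 + 1)

def go (f : ℕ → ℕ) : ℕ → List ℕ → List ℕ → List ℕ
  | _, [], acc => acc
  | s, v :: l, acc => go f (s + v) l (f s :: acc)

def fL (t : ℕ) : ℕ := sqlo 53 (O - ((t + 2 * (O / 10 ^ 16 + 1)) / (12 * 10 ^ 15 - 300) + 1))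

def fU (t : ℕ) : ℕ := sqhi 53 (O - t / (12 * 10 ^ 15 + 300))

def L (l : List ℕ) : List ℕ := go fL 0 l []

def U (l : List ℕ) : List ℕ := go fU 0 l []

def mk (f : ℤ → ℕ) : ℕ → ℤ → List ℕ
  | 0, _ => []
  | n + 1, x => f x :: mk f n (x - 1)

def ind (j : ℤ) : List ℕ := mk (fun x => if 0 ≤ x ∧ x ≤ 12 * 10 ^ 15 + j then O else 0) 121 (12 * 10 ^ 15 + 60)

def le : List ℕ → List ℕ → Bool
  | a :: l, b :: m => decide (a ≤ b) && le l m
  | [], [] => true
  | _, _ => false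

def ok (p : List ℕ × List ℕ) : Bool := p.1.length == 121 && p.2.length == 121 && decide (57 * O ≤ p.1.sum)

def step (p : List ℕ × List ℕ) : List ℕ × List ℕ := (L p.2, U p.1)

def fin (a : List ℕ) (p : List ℕ × List ℕ) : Bool :=
  le a p.1 && ok (a, p.2) && ok (step (a, p.2)) && le a (step (step (a, p.2))).1 && le (step (step (a, p.2))).2 p.2 &&
    decide (100 * p.2.getD 60 0 ≤ 45 * O) && decide (65 * O ≤ 100 * (step (a, p.2)).1.getD 60 0)

def run (a : List ℕ) : ℕ → List ℕ × List ℕ → Bool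
  | 0, p => fin a p
  | n + 1, p => ok p && run a n (step p)

def it : ℕ → List ℕ → List ℕ
  | 0, a => a
  | n + 1, a => it n (L (U a))

theorem chk : run (it 16 (L (ind 2))) 32 (ind 0, ind 0) = true := by decide +kernel

end Pool.Agent.H.MP_ba78e1_pr
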